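import Pool.Agent.helper74.VQ.SpecE

set_option autoImplicit false

open scoped MatrixGroups ContDiff Topology UpperHalfPlane ComplexConjugate ENNReal
open UpperHalfPlane MeasureTheory Filter Set

namespace Pool.Agent.VQ

open Pool.Agent.RS

noncomputable section

/-- the Gaussian integral of a positive quadratic form in two variables -/
theorem VNP_gauss2 (R a b c : ℝ) (hR : 0 < R) (ha : 0 < a) (hd : 0 < a * c - b ^ 2) :
    Integrable (fun z : ℝ × ℝ => Real.exp (-(R * (a * z.1 ^ 2 + 2 * b * z.1 * z.2 + c * z.2 ^ 2)))) ∧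
    ∫ z : ℝ × ℝ, Real.exp (-(R * (a * z.1 ^ 2 + 2 * b * z.1 * z.2 + c * z.2 ^ 2))) = Real.pi / (R * Real.sqrt (a * c - b ^ 2)) := by
  set k : ℝ := b / a with hk
  set d : ℝ := (a * c - b ^ 2) / a with hdd
  have hd' : 0 < d := div_pos hd ha
  have key : ∀ z : ℝ × ℝ, Real.exp (-(R * (a * z.1 ^ 2 + 2 * b * z.1 * z.2 + c * z.2 ^ 2))) =
      Real.exp (-(R * a) * (z.1 + k * z.2) ^ 2) * Real.exp (-(R * d) * z.2 ^ 2) := by
    intro z
    rw [← Real.exp_add]
    congr 1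
    rw [hk, hdd]
    field_simp
    ring
  have hRa : 0 < R * a := mul_pos hR ha
  have hRd : 0 < R * d := mul_pos hR hd'
  have hcont : Continuous fun z : ℝ × ℝ => Real.exp (-(R * a) * (z.1 + k * z.2) ^ 2) * Real.exp (-(R * d) * z.2 ^ 2) := by fun_prop
  have hx : ∀ y : ℝ, Integrable fun x : ℝ => Real.exp (-(R * a) * (x + k * y) ^ 2) := fun y =>
    (integrable_exp_neg_mul_sq hRa).comp_add_right (k * y)
  have hxi : ∀ y : ℝ, ∫ x : ℝ, Real.exp (-(R * a) * (x + k * y) ^ 2) = Real.sqrt (Real.pi / (R * a)) := by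
    intro y
    rw [integral_add_right_eq_self (fun x : ℝ => Real.exp (-(R * a) * x ^ 2)) (k * y), integral_gaussian]
  have hI : Integrable (fun z : ℝ × ℝ => Real.exp (-(R * a) * (z.1 + k * z.2) ^ 2) * Real.exp (-(R * d) * z.2 ^ 2))
      (volume.prod volume) := by
    rw [integrable_prod_iff' hcont.aestronglyMeasurable]
    refine ⟨Eventually.of_forall fun y => (hx y).mul_const (Real.exp (-(R * d) * y ^ 2)), ?_⟩
    have h1 : (fun y : ℝ => ∫ x : ℝ, ‖Real.exp (-(R * a) * (x + k * y) ^ 2) * Real.exp (-(R * d) * y ^ 2)‖) =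
        fun y : ℝ => Real.sqrt (Real.pi / (R * a)) * Real.exp (-(R * d) * y ^ 2) := by
      funext y
      rw [← hxi y, ← integral_mul_const]
      refine integral_congr_ae (Eventually.of_forall fun x => ?_)
      simp only [norm_mul, Real.norm_eq_abs, Real.abs_exp]
    simp only
    rw [h1]
    exact (integrable_exp_neg_mul_sq hRd).const_mul _
  simp only [key]
  refine ⟨hI, ?_⟩
  change ∫ z : ℝ × ℝ, Real.exp (-(R * a) * (z.1 + k * z.2) ^ 2) * Real.exp (-(R * d) * z.2 ^ 2) ∂(volume.prod volume) = _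
  rw [integral_prod_symm _ hI]
  have h2 : ∀ y : ℝ, ∫ x : ℝ, Real.exp (-(R * a) * (x + k * y) ^ 2) * Real.exp (-(R * d) * y ^ 2) =
      Real.sqrt (Real.pi / (R * a)) * Real.exp (-(R * d) * y ^ 2) := by
    intro y
    rw [integral_mul_const, hxi y]
  simp only [h2]
  rw [integral_const_mul, integral_gaussian, ← Real.sqrt_mul (by positivity)]
  have h3 : Real.pi / (R * a) * (Real.pi / (R * d)) = (Real.pi / R) ^ 2 / (a * c - b ^ 2) := by
    rw [hdd]
    field_simp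
  rw [h3, Real.sqrt_div (by positivity), Real.sqrt_sq (by positivity), div_div]

theorem VNP_gauss (R a b c : ℝ) (hR : 0 < R) (ha : 0 < a) (hd : 0 < a * c - b ^ 2) :
    Integrable (fun v : ℂ => Real.exp (-(R * (a * v.re ^ 2 + 2 * b * v.re * v.im + c * v.im ^ 2)))) ∧
    ∫ v : ℂ, Real.exp (-(R * (a * v.re ^ 2 + 2 * b * v.re * v.im + c * v.im ^ 2))) = Real.pi / (R * Real.sqrt (a * c - b ^ 2)) := by
  obtain ⟨h1, h2⟩ := VNP_gauss2 R a b c hR ha hd
  have hmp := Complex.volume_preserving_equiv_real_prod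
  constructor
  · exact (hmp.integrable_comp_emb Complex.measurableEquivRealProd.measurableEmbedding).2 h1
  · rw [← h2]
    exact hmp.integral_comp' (f := Complex.measurableEquivRealProd) (fun z : ℝ × ℝ => Real.exp (-(R * (a * z.1 ^ 2 + 2 * b * z.1 * z.2 + c * z.2 ^ 2))))

/-- the weight -/
theorem VNP_jd (v : ℂ) (x : ℝ) (hx : ‖v‖ ^ 2 ≤ x) (hx1 : x ≤ 1) : 0 < jd v ∧ jd v ≤ 1 + x := by
  have h0 : 0 ≤ ‖v‖ ^ 2 := by positivity
  have h1 : 0 < 1 - ‖v‖ ^ 2 / 4 := by linarith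
  unfold jd
  refine ⟨by positivity, ?_⟩
  rw [inv_le_comm₀ (by positivity) (by linarith)]
  have h2 : 1 - x / 4 ≤ 1 - ‖v‖ ^ 2 / 4 := by linarith
  have h3 : (1 - x / 4) ^ 2 ≤ (1 - ‖v‖ ^ 2 / 4) ^ 2 := pow_le_pow_left₀ (by linarith) h2 2
  refine le_trans ?_ h3
  rw [inv_le_iff_one_le_mul₀ (by linarith)]
  have hx0 : 0 ≤ x := h0.trans hx
  nlinarith [mul_nonneg hx0 (sub_nonneg.2 hx1), mul_nonneg (mul_nonneg hx0 hx0) hx0, mul_nonneg hx0 hx0]

/-- integrals over the disc of functions dominated by a function on the plane -/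
theorem VNP_int (hVCD : VCD_stmt) (hVCM : VCM_stmt) (g : SL(2, ℝ)) (f h : ℂ → ℝ) (x : ℝ) (hx0 : 0 ≤ x) (hx1 : x ≤ 1)
    (hf : ∀ v, 0 ≤ f v) (hs : ∀ v, f v ≠ 0 → ‖v‖ ^ 2 ≤ x) (hfh : ∀ v, f v ≤ h v) (hh : ∀ v, 0 ≤ h v) (hi : Integrable h) :
    ∫ z : ℍ, f (cd (g⁻¹ • z)) ≤ (1 + x) * ∫ v : ℂ, h v := by
  obtain ⟨-, hcd, -⟩ := hVCD
  rw [hVCM.1 ℝ g (fun z => f (cd (g⁻¹ • z)))]
  have h1 : ∀ v ∈ Metric.ball (0 : ℂ) 2, jd v • f (cd (g⁻¹ • (g • cdi v))) = jd v * f v := by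
    intro v hv
    rw [inv_smul_smul, (hcd v (by simpa using hv)).1, smul_eq_mul]
  rw [setIntegral_congr_fun measurableSet_ball h1]
  have h2 : ∫ v in Metric.ball (0 : ℂ) 2, jd v * f v ≤ ∫ v in Metric.ball (0 : ℂ) 2, (1 + x) * h v := by
    refine integral_mono_of_nonneg (Eventually.of_forall fun v => ?_) (hi.const_mul _).integrableOn (Eventually.of_forall fun v => ?_)
    · have : 0 ≤ jd v := by unfold jd; positivity
      exact mul_nonneg this (hf v)
    · by_cases hv : f v = 0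
      · change jd v * f v ≤ _
        rw [hv, mul_zero]
        exact mul_nonneg (by linarith) (hh v)
      · exact mul_le_mul (VNP_jd v x (hs v hv) hx1).2 (hfh v) (hf v) (by linarith)
  refine h2.trans ?_
  rw [← integral_const_mul]
  exact setIntegral_le_integral (hi.const_mul _) (Eventually.of_forall fun v => mul_nonneg (by linarith) (hh v))

/-- the positive matrix of a beam -/
theorem VNP_mat (Y P : Matrix (Fin 2) (Fin 2) ℂ) (a : ℂ) (h1 : Y.det ≠ 0)
    (h2 : Y.conjTranspose * P - P.conjTranspose * Y = (2 * Complex.I) • (1 : Matrix (Fin 2) (Fin 2) ℂ))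
    (h3 : (P * Y⁻¹) 0 1 = (P * Y⁻¹) 1 0) (h4 : a ^ 2 * Y.det = 1) :
    0 < ((P * Y⁻¹) 0 0).im ∧ 0 < ((P * Y⁻¹) 0 0).im * ((P * Y⁻¹) 1 1).im - ((P * Y⁻¹) 0 1).im ^ 2 ∧
    ‖a‖ ^ 2 = Real.sqrt (((P * Y⁻¹) 0 0).im * ((P * Y⁻¹) 1 1).im - ((P * Y⁻¹) 0 1).im ^ 2) := by
  have hu : IsUnit Y.det := isUnit_iff_ne_zero.2 h1
  have hYW : Y * Y⁻¹ = 1 := Matrix.mul_nonsing_inv Y hu
  set W := Y⁻¹ with hW
  set M := P * W with hM
  have key : M - M.conjTranspose = (2 * Complex.I) • (W.conjTranspose * W) := by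
    have e1 : W.conjTranspose * (Y.conjTranspose * P - P.conjTranspose * Y) * W = M - M.conjTranspose := by
      rw [mul_sub, sub_mul]
      have e2 : W.conjTranspose * (Y.conjTranspose * P) * W = M := by
        rw [← mul_assoc, ← Matrix.conjTranspose_mul, hYW, Matrix.conjTranspose_one, one_mul]
      have e3 : W.conjTranspose * (P.conjTranspose * Y) * W = M.conjTranspose := by
        rw [← mul_assoc, ← Matrix.conjTranspose_mul, mul_assoc, hYW, mul_one]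
      rw [e2, e3]
    rw [← e1, h2]
    simp
  have k00 := congr_fun (congr_fun key 0) 0
  have k11 := congr_fun (congr_fun key 1) 1
  have k01 := congr_fun (congr_fun key 0) 1
  simp only [Matrix.sub_apply, Matrix.conjTranspose_apply, Matrix.smul_apply, Matrix.mul_apply, Fin.sum_univ_two, smul_eq_mul,
    RCLike.star_def] at k00 k11 k01
  rw [← h3] at k01
  have i00 := congrArg Complex.im k00
  have i11 := congrArg Complex.im k11
  have r01 := congrArg Complex.re k01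
  have i01 := congrArg Complex.im k01
  simp at i00 i11 r01 i01
  have hdW : W.det = W 0 0 * W 1 1 - W 0 1 * W 1 0 := Matrix.det_fin_two W
  have hn : ‖W.det‖ ^ 2 = (M 0 0).im * (M 1 1).im - (M 0 1).im ^ 2 := by
    rw [hdW, ← Complex.normSq_eq_norm_sq, Complex.normSq_apply]
    have a00 : (M 0 0).im = (W 0 0).re ^ 2 + (W 0 0).im ^ 2 + (W 1 0).re ^ 2 + (W 1 0).im ^ 2 := by linarith
    have a11 : (M 1 1).im = (W 0 1).re ^ 2 + (W 0 1).im ^ 2 + (W 1 1).re ^ 2 + (W 1 1).im ^ 2 := by linarith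
    have a01 : (M 0 1).im = (W 0 0).re * (W 0 1).re + (W 0 0).im * (W 0 1).im + (W 1 0).re * (W 1 1).re + (W 1 0).im * (W 1 1).im := by linarith
    have b01 : (W 0 0).re * (W 0 1).im - (W 0 0).im * (W 0 1).re + (W 1 0).re * (W 1 1).im - (W 1 0).im * (W 1 1).re = 0 := by linarith
    rw [a00, a11, a01]
    simp only [Complex.sub_re, Complex.sub_im, Complex.mul_re, Complex.mul_im]
    linear_combination (-((W 0 0).re * (W 0 1).im - (W 0 0).im * (W 0 1).re + (W 1 0).re * (W 1 1).im - (W 1 0).im * (W 1 1).re)) * b01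
  have hWY : W.det * Y.det = 1 := by
    rw [← Matrix.det_mul, hW, Matrix.nonsing_inv_mul Y hu, Matrix.det_one]
  have hW0 : W.det ≠ 0 := left_ne_zero_of_mul_eq_one hWY
  have hpos : 0 < (M 0 0).im * (M 1 1).im - (M 0 1).im ^ 2 := by
    rw [← hn]
    positivity
  have ha0 : 0 ≤ (M 0 0).im := by
    have : (M 0 0).im = (W 0 0).re ^ 2 + (W 0 0).im ^ 2 + (W 1 0).re ^ 2 + (W 1 0).im ^ 2 := by linarith
    rw [this]
    positivity
  refine ⟨?_, hpos, ?_⟩
  · rcases ha0.lt_or_eq with h | h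
    · exact h
    · rw [← h] at hpos
      nlinarith [sq_nonneg (M 0 1).im]
  · rw [← hn, Real.sqrt_sq (norm_nonneg _)]
    have e4 : a ^ 2 = W.det := by
      have : a ^ 2 * Y.det = W.det * Y.det := by rw [h4, hWY]
      exact mul_right_cancel₀ h1 this
    rw [← e4, norm_pow]

theorem VNP_qf (M : Matrix (Fin 2) (Fin 2) ℂ) (h : M 0 1 = M 1 0) (v : ℂ) :
    (qf M v).im = (M 0 0).im * v.re ^ 2 + 2 * (M 0 1).im * v.re * v.im + (M 1 1).im * v.im ^ 2 := by
  unfold qf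
  rw [← h]
  simp only [Complex.add_im, Complex.mul_im, Complex.ofReal_re, Complex.ofReal_im, Complex.add_re, mul_zero, zero_add]
  ring

/-- the modulus of the beam -/
theorem VNP_pv (D : Dyn) (ch : ℝ → ℝ) (ζ ζ1 R t : ℝ) (p : SL(2, ℝ) × ℝ) (v : ℂ) :
    ‖pv D ch ζ ζ1 R t p v‖ = |cR ch ζ R * ch (R ^ (1 - 2 * ζ1) * ‖v‖ ^ 2)| * ‖D.a p.2 t p.1‖ *
      Real.exp (-(R * (qf (D.M p.2 t p.1) v).im / 2)) := by
  unfold pv
  rw [norm_mul, norm_mul, Complex.norm_real, Real.norm_eq_abs, Complex.norm_exp]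
  congr 2
  simp only [Complex.mul_re, Complex.mul_im, Complex.add_re, Complex.add_im, Complex.ofReal_re, Complex.ofReal_im, Complex.I_re, Complex.I_im,
    Complex.div_ofNat_im, Complex.div_ofNat_re]
  ring

/-- numbers -/
theorem VNP_num (R : ℝ) (hR : 1024 ≤ R) : R ^ (-(3 / 4) : ℝ) ≤ R ^ (-(1 / 2) : ℝ) ∧ R ^ (-(1 / 2) : ℝ) ≤ 1 / 32 ∧
    3 * R ^ (-(1 / 2) : ℝ) ≤ R ^ (-(1 / 5) : ℝ) ∧ R ^ (-(1 / 5) : ℝ) ≤ 1 ∧ 0 < R ^ (-(3 / 4) : ℝ) := by
  have hR0 : 0 < R := by linarith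
  have h1 : (1 : ℝ) ≤ R := by linarith
  refine ⟨Real.rpow_le_rpow_of_exponent_le h1 (by norm_num), ?_, ?_, Real.rpow_le_one_of_one_le_of_nonpos h1 (by norm_num), by positivity⟩
  · have e1 : (1024 : ℝ) ^ (1 / 2 : ℝ) = 32 := by
      rw [show (1024 : ℝ) = 2 ^ (10 : ℝ) by norm_num, ← Real.rpow_mul (by norm_num)]
      norm_num
    have e2 : (32 : ℝ) ≤ R ^ (1 / 2 : ℝ) := by
      rw [← e1]
      exact Real.rpow_le_rpow (by norm_num) hR (by norm_num)
    rw [Real.rpow_neg hR0.le, one_div 32]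
    exact inv_anti₀ (by norm_num) e2
  · have e1 : (1024 : ℝ) ^ (3 / 10 : ℝ) = 8 := by
      rw [show (1024 : ℝ) = 2 ^ (10 : ℝ) by norm_num, ← Real.rpow_mul (by norm_num)]
      norm_num
    have e2 : (8 : ℝ) ≤ R ^ (3 / 10 : ℝ) := by
      rw [← e1]
      exact Real.rpow_le_rpow (by norm_num) hR (by norm_num)
    have e3 : R ^ (-(1 / 5) : ℝ) = R ^ (3 / 10 : ℝ) * R ^ (-(1 / 2) : ℝ) := by
      rw [← Real.rpow_add hR0]
      norm_num
    rw [e3]
    exact mul_le_mul_of_nonneg_right (by linarith) (by positivity)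

/-- supports -/
theorem VNP_sup (R ζ : ℝ) (v : ℂ) (hR : 1 ≤ R) (hζ : ζ ≤ 1 / 8) (h : R ^ (1 - 2 * ζ) * ‖v‖ ^ 2 ≤ 1) : ‖v‖ ^ 2 ≤ R ^ (-(3 / 4) : ℝ) := by
  have hR0 : 0 < R := by linarith
  have h1 : R ^ (3 / 4 : ℝ) ≤ R ^ (1 - 2 * ζ) := Real.rpow_le_rpow_of_exponent_le hR (by linarith)
  have h2 : R ^ (3 / 4 : ℝ) * ‖v‖ ^ 2 ≤ 1 := (mul_le_mul_of_nonneg_right h1 (by positivity)).trans h
  rw [Real.rpow_neg hR0.le]
  rw [← one_div, le_div_iff₀ (by positivity)]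
  linarith

theorem VNP_proof (hVCD : VCD_stmt) (hVCM : VCM_stmt) (hVBR : VBR_stmt) (hVYA : VYA_stmt) : VNP_stmt := by
  refine ⟨8, by norm_num, ?_⟩
  intro ch e ζ ζ1 B hch hRg
  obtain ⟨-, hζ, hζζ1, -, hζ1⟩ := hRg
  have hζ1' : ζ1 ≤ 1 / 8 := by linarith
  have hζ' : ζ ≤ 1 / 8 := hζζ1.trans hζ1'
  obtain ⟨R1, hR1, hB⟩ := hVBR ch ζ hch hζ hζ'
  refine ⟨max R1 1024, le_max_of_le_left hR1, ?_⟩
  intro R δ t Γ D p hR hD hδ hp ht0 ht
  have hRR : 1024 ≤ R := (le_max_right _ _).trans hR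
  have hR0 : 0 < R := by linarith
  have hR1' : 1 ≤ R := by linarith
  obtain ⟨-, hbs, hb, -, hbR1, hbR2, hcb, -, hcR⟩ := hB R ((le_max_left _ _).trans hR)
  obtain ⟨n1, n2, n3, n4, n5⟩ := VNP_num R hRR
  obtain ⟨y1, -, y3, y4, y5, -, -⟩ := hVYA Γ δ B D hD hδ p.2 t p.1 hp
  obtain ⟨m1, m2, m3⟩ := VNP_mat (D.Y p.2 t p.1) (D.P p.2 t p.1) (D.a p.2 t p.1) y1 y3 y4 y5
  change 0 < (D.M p.2 t p.1 0 0).im at m1
  change 0 < (D.M p.2 t p.1 0 0).im * (D.M p.2 t p.1 1 1).im - (D.M p.2 t p.1 0 1).im ^ 2 at m2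
  change ‖D.a p.2 t p.1‖ ^ 2 = Real.sqrt ((D.M p.2 t p.1 0 0).im * (D.M p.2 t p.1 1 1).im - (D.M p.2 t p.1 0 1).im ^ 2) at m3
  set x : ℝ := R ^ (-(3 / 4) : ℝ) with hx
  set y : ℝ := R ^ (-(1 / 2) : ℝ) with hy
  set w : ℝ := R ^ (-(1 / 5) : ℝ) with hw
  have hc0 : 0 ≤ cR ch ζ R := Real.sqrt_nonneg _
  have hpi := Real.pi_pos
  -- the constant
  have hconst : (1 + x) * (cR ch ζ R ^ 2 * (Real.pi / R)) ≤ (1 + w) * (R ^ 2 / (2 * Real.pi)) := by
    have e1 : cR ch ζ R ^ 2 * ((1 - y) * (Real.pi / R)) ≤ R ^ 2 / (2 * Real.pi) := by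
      rw [← hcb]
      exact mul_le_mul_of_nonneg_left hbR1 (by positivity)
    have e2 : 1 + x ≤ (1 + w) * (1 - y) := by nlinarith
    calc (1 + x) * (cR ch ζ R ^ 2 * (Real.pi / R)) ≤ ((1 + w) * (1 - y)) * (cR ch ζ R ^ 2 * (Real.pi / R)) :=
          mul_le_mul_of_nonneg_right e2 (by positivity)
      _ = (1 + w) * (cR ch ζ R ^ 2 * ((1 - y) * (Real.pi / R))) := by ring
      _ ≤ _ := mul_le_mul_of_nonneg_left e1 (by linarith)
  have hGn : ∀ z : ℍ, ‖Gp D.U ch ζ R p z‖ = cR ch ζ R * b0 ch ζ R (cd (p.1⁻¹ • z)) := by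
    intro z
    unfold Gp
    rw [norm_mul, Complex.norm_exp_ofReal_mul_I, mul_one, Complex.norm_real, Real.norm_of_nonneg (mul_nonneg hc0 (hb _).1)]
  have hbsup : ∀ v, b0 ch ζ R v ≠ 0 → ‖v‖ ^ 2 ≤ x := by
    intro v hv
    refine VNP_sup R ζ v hR1' hζ' ?_
    by_contra hcon
    apply hv
    unfold b0
    rw [hch.zero _ (not_le.1 hcon).le, mul_zero]
  have hqf : ∀ v : ℂ, (qf (D.M p.2 t p.1) v).im = (D.M p.2 t p.1 0 0).im * v.re ^ 2 + 2 * (D.M p.2 t p.1 0 1).im * v.re * v.im +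
      (D.M p.2 t p.1 1 1).im * v.im ^ 2 := fun v => VNP_qf _ y4 v
  have hqf0 : ∀ v : ℂ, 0 ≤ (qf (D.M p.2 t p.1) v).im := by
    intro v
    rw [hqf]
    have e1 : 0 ≤ (D.M p.2 t p.1 0 0).im * ((D.M p.2 t p.1 0 0).im * v.re ^ 2 + 2 * (D.M p.2 t p.1 0 1).im * v.re * v.im +
        (D.M p.2 t p.1 1 1).im * v.im ^ 2) := by
      have e2 : (D.M p.2 t p.1 0 0).im * ((D.M p.2 t p.1 0 0).im * v.re ^ 2 + 2 * (D.M p.2 t p.1 0 1).im * v.re * v.im +
        (D.M p.2 t p.1 1 1).im * v.im ^ 2) = ((D.M p.2 t p.1 0 0).im * v.re + (D.M p.2 t p.1 0 1).im * v.im) ^ 2 +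
        ((D.M p.2 t p.1 0 0).im * (D.M p.2 t p.1 1 1).im - (D.M p.2 t p.1 0 1).im ^ 2) * v.im ^ 2 := by ring
      rw [e2]
      have e3 := mul_nonneg m2.le (sq_nonneg v.im)
      positivity
    exact nonneg_of_mul_nonneg_right e1 m1
  refine ⟨?_, ?_, ?_, ?_, ?_⟩
  · -- the beam
    obtain ⟨g1, g2⟩ := VNP_gauss R _ _ _ hR0 m1 m2
    have e1 := VNP_int hVCD hVCM (D.fl p.2 t p.1) (fun v => ‖pv D ch ζ ζ1 R t p v‖ ^ 2)
      (fun v => (cR ch ζ R ^ 2 * ‖D.a p.2 t p.1‖ ^ 2) * Real.exp (-(R * ((D.M p.2 t p.1 0 0).im * v.re ^ 2 + 2 * (D.M p.2 t p.1 0 1).im * v.re * v.im +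
      (D.M p.2 t p.1 1 1).im * v.im ^ 2)))) x n5.le (by linarith) (fun v => by positivity) ?_ ?_ (fun v => by positivity) (g1.const_mul _)
    · unfold nn
      rw [setIntegral_univ]
      refine e1.trans ?_
      rw [integral_const_mul, g2]
      refine le_trans (le_of_eq ?_) hconst
      rw [m3]
      have e2 : Real.sqrt ((D.M p.2 t p.1 0 0).im * (D.M p.2 t p.1 1 1).im - (D.M p.2 t p.1 0 1).im ^ 2) ≠ 0 := (Real.sqrt_pos.2 m2).ne'
      field_simp
    · intro v hv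
      refine VNP_sup R ζ1 v hR1' hζ1' ?_
      by_contra hcon
      apply hv
      rw [VNP_pv, hch.zero _ (not_le.1 hcon).le]
      simp
    · intro v
      rw [VNP_pv, ← hqf, mul_pow, mul_pow, sq_abs, ← Real.exp_nat_mul, mul_pow]
      have e3 : ((2 : ℕ) : ℝ) * -(R * (qf (D.M p.2 t p.1) v).im / 2) = -(R * (qf (D.M p.2 t p.1) v).im) := by push_cast; ring
      rw [e3]
      refine mul_le_mul_of_nonneg_right ?_ (Real.exp_pos _).le
      refine mul_le_mul_of_nonneg_right ?_ (by positivity)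
      have e4 := hch.bd (R ^ (1 - 2 * ζ1) * ‖v‖ ^ 2)
      have e5 : ch (R ^ (1 - 2 * ζ1) * ‖v‖ ^ 2) ^ 2 ≤ 1 := pow_le_one₀ e4.1 e4.2
      calc cR ch ζ R ^ 2 * ch (R ^ (1 - 2 * ζ1) * ‖v‖ ^ 2) ^ 2 ≤ cR ch ζ R ^ 2 * 1 := mul_le_mul_of_nonneg_left e5 (by positivity)
        _ = _ := mul_one _
  · -- the packet
    obtain ⟨g1, g2⟩ := VNP_gauss R 1 0 1 hR0 one_pos (by norm_num)
    have e1 := VNP_int hVCD hVCM p.1 (fun v => (cR ch ζ R * b0 ch ζ R v) ^ 2)
      (fun v => cR ch ζ R ^ 2 * Real.exp (-(R * (1 * v.re ^ 2 + 2 * 0 * v.re * v.im + 1 * v.im ^ 2)))) x n5.le (by linarith) (fun v => by positivity) ?_ ?_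
      (fun v => by positivity) (g1.const_mul _)
    · unfold nn
      rw [setIntegral_univ]
      simp only [hGn]
      refine e1.trans ?_
      rw [integral_const_mul, g2]
      have e2 : Real.sqrt ((1 : ℝ) * 1 - 0 ^ 2) = 1 := by norm_num
      rw [e2, mul_one]
      refine hconst.trans ?_
      have e3 : (1 + w) * (R ^ 2 / (2 * Real.pi)) ≤ 2 * (R ^ 2 / (2 * Real.pi)) := mul_le_mul_of_nonneg_right (by linarith) (by positivity)
      refine e3.trans ?_
      have e4 : 2 * (R ^ 2 / (2 * Real.pi)) = R ^ 2 / Real.pi := by field_simp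
      rw [e4, div_le_iff₀ hpi]
      have := Real.pi_gt_three
      nlinarith [sq_nonneg R]
    · intro v hv
      refine hbsup v fun h => hv ?_
      rw [h]
      ring
    · intro v
      rw [mul_pow]
      refine mul_le_mul_of_nonneg_left ?_ (by positivity)
      have e2 := pow_le_pow_left₀ (hb v).1 (hb v).2 2
      refine e2.trans (le_of_eq ?_)
      rw [← Real.exp_nat_mul, ← Complex.normSq_eq_norm_sq, Complex.normSq_apply]
      congr 1
      push_cast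
      ring
  · -- the L1 norm
    obtain ⟨g1, g2⟩ := VNP_gauss (R / 2) 1 0 1 (by linarith) one_pos (by norm_num)
    have e1 := VNP_int hVCD hVCM p.1 (fun v => cR ch ζ R * b0 ch ζ R v)
      (fun v => cR ch ζ R * Real.exp (-(R / 2 * (1 * v.re ^ 2 + 2 * 0 * v.re * v.im + 1 * v.im ^ 2)))) x n5.le (by linarith)
      (fun v => mul_nonneg hc0 (hb v).1) ?_ ?_ (fun v => by positivity) (g1.const_mul _)
    · simp only [hGn]
      refine e1.trans ?_
      rw [integral_const_mul, g2]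
      have e2 : Real.sqrt ((1 : ℝ) * 1 - 0 ^ 2) = 1 := by norm_num
      rw [e2, mul_one]
      have e3 : R ^ (3 / 2 : ℝ) = R ^ (1 / 2 : ℝ) * R := by
        rw [← Real.rpow_add_one hR0.ne']
        norm_num
      have e4 : cR ch ζ R * (Real.pi / (R / 2)) ≤ 2 * Real.pi * R ^ (1 / 2 : ℝ) := by
        calc cR ch ζ R * (Real.pi / (R / 2)) ≤ (R ^ (1 / 2 : ℝ) * R) * (Real.pi / (R / 2)) := by
              rw [← e3]
              exact mul_le_mul_of_nonneg_right hcR (by positivity)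
          _ = 2 * Real.pi * R ^ (1 / 2 : ℝ) := by field_simp
      have e5 : (1 + x) * (cR ch ζ R * (Real.pi / (R / 2))) ≤ (1 + 1 / 32) * (2 * Real.pi * R ^ (1 / 2 : ℝ)) :=
        mul_le_mul (by linarith) e4 (by positivity) (by norm_num)
      refine e5.trans ?_
      have e6 := Real.pi_lt_d2
      have e7 : 0 < R ^ (1 / 2 : ℝ) := by positivity
      calc (1 + 1 / 32) * (2 * Real.pi * R ^ (1 / 2 : ℝ)) = ((1 + 1 / 32) * 2 * Real.pi) * R ^ (1 / 2 : ℝ) := by ring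
        _ ≤ 8 * R ^ (1 / 2 : ℝ) := mul_le_mul_of_nonneg_right (by linarith) e7.le
    · intro v hv
      refine hbsup v fun h => hv ?_
      rw [h, mul_zero]
    · intro v
      refine mul_le_mul_of_nonneg_left ?_ hc0
      refine (hb v).2.trans (le_of_eq ?_)
      rw [← Complex.normSq_eq_norm_sq, Complex.normSq_apply]
      congr 1
      ring
  · intro z
    unfold psi
    rw [VNP_pv]
    have e4 := hch.bd (R ^ (1 - 2 * ζ1) * ‖cd ((D.fl p.2 t p.1)⁻¹ • z)‖ ^ 2)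
    have e5 : |cR ch ζ R * ch (R ^ (1 - 2 * ζ1) * ‖cd ((D.fl p.2 t p.1)⁻¹ • z)‖ ^ 2)| ≤ R ^ (3 / 2 : ℝ) := by
      rw [abs_of_nonneg (mul_nonneg hc0 e4.1)]
      calc _ ≤ cR ch ζ R * 1 := mul_le_mul_of_nonneg_left e4.2 hc0
        _ ≤ _ := by rw [mul_one]; exact hcR
    have e6 : Real.exp (-(R * (qf (D.M p.2 t p.1) (cd ((D.fl p.2 t p.1)⁻¹ • z))).im / 2)) ≤ 1 := by
      rw [Real.exp_le_one_iff]
      have := mul_nonneg hR0.le (hqf0 (cd ((D.fl p.2 t p.1)⁻¹ • z)))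
      linarith
    calc _ ≤ R ^ (3 / 2 : ℝ) * ‖D.a p.2 t p.1‖ * 1 :=
          mul_le_mul (mul_le_mul_of_nonneg_right e5 (norm_nonneg _)) e6 (Real.exp_pos _).le (by positivity)
      _ = _ := mul_one _
  · intro K η m ρ f g hη hη' hm hs hf
    obtain ⟨A, -, hA1, hA2, hA3⟩ := hf
    set s : ℝ := R ^ (-(1 / 2) + η) with hsdef
    have hs0 : 0 < s := by positivity
    have hfA : ∀ v, ‖f v‖ = ‖A v‖ := by
      intro v
      rw [hA3, norm_mul, Complex.norm_exp_ofReal_mul_I, one_mul]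
    have hAm : ∀ v, ‖A v‖ ≤ m := by
      intro v
      have := hA2 0 (Nat.zero_le _) v
      rwa [norm_iteratedFDeriv_zero, pow_zero, mul_one] at this
    have hsup : ∀ v, f v ≠ 0 → ‖v‖ ≤ s := by
      intro v hv
      apply hA1
      intro h
      apply hv
      rw [← norm_eq_zero, hfA, h, norm_zero]
    have hvol : volume (Metric.closedBall (0 : ℂ) s) ≠ ⊤ := (measure_closedBall_lt_top).ne
    have e1 := VNP_int hVCD hVCM g (fun v => ‖f v‖ ^ 2) ((Metric.closedBall (0 : ℂ) s).indicator fun _ => m ^ 2) (s ^ 2) (by positivity)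
      (by nlinarith) (fun v => by positivity) ?_ ?_ (fun v => indicator_nonneg (fun _ _ => by positivity) _)
      ((integrable_indicator_iff measurableSet_closedBall).2 (integrableOn_const hvol))
    · unfold nn
      rw [setIntegral_univ]
      refine e1.trans ?_
      rw [integral_indicator measurableSet_closedBall, setIntegral_const, smul_eq_mul]
      have e2 : volume.real (Metric.closedBall (0 : ℂ) s) = Real.pi * s ^ 2 := by
        rw [Measure.real, Complex.volume_closedBall, ENNReal.toReal_mul, ENNReal.toReal_pow, ENNReal.toReal_ofReal hs0.le]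
        simp [mul_comm]
      rw [e2]
      have e3 : s ^ 2 ≤ 1 / 16 := by nlinarith
      have e4 := Real.pi_lt_d2
      have e5 : 0 ≤ m ^ 2 * s ^ 2 := by positivity
      calc (1 + s ^ 2) * (Real.pi * s ^ 2 * m ^ 2) = ((1 + s ^ 2) * Real.pi) * (m ^ 2 * s ^ 2) := by ring
        _ ≤ 8 * (m ^ 2 * s ^ 2) := by
            refine mul_le_mul_of_nonneg_right ?_ e5
            nlinarith
        _ = _ := by ring
    · intro v hv
      have : f v ≠ 0 := fun h => hv (by rw [h]; simp)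
      exact pow_le_pow_left₀ (norm_nonneg _) (hsup v this) 2
    · intro v
      by_cases hv : v ∈ Metric.closedBall (0 : ℂ) s
      · rw [indicator_of_mem hv]
        rw [hfA]
        exact pow_le_pow_left₀ (norm_nonneg _) (hAm v) 2
      · rw [indicator_of_notMem hv]
        have : f v = 0 := by
          by_contra hcon
          exact hv (by simpa using hsup v hcon)
        rw [this]
        simp

end

end Pool.Agent.VQ
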