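import Pool.Agent.helper74.VQ.SpecE
import Pool.Agent.helper89.VQ.VSA

set_option autoImplicit false

open scoped MatrixGroups ContDiff Topology UpperHalfPlane ComplexConjugate ENNReal
open UpperHalfPlane MeasureTheory Filter Set

namespace Pool.Agent.VQ

open Pool.Agent.RS

noncomputable section

/-- measurable bounded functions with bounded support are integrable on the window -/
theorem VAD_int (hVDM : VDM_stmt) {R : ℝ} (hW : 2 * R ^ (-(1 / 4) : ℝ) ≤ 1 / 8) {f : SL(2, ℝ) × ℝ → ℂ} (hm : Measurable f)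
    (hb : ∃ b : ℝ, ∀ p, ‖f p‖ ≤ b) (hs : ∃ b : ℝ, ∀ p, f p ≠ 0 → dist (p.1 • I : ℍ) I ≤ b) : IntegrableOn f (GW 2 R) mP := by
  obtain ⟨b, hb⟩ := hb
  obtain ⟨b', hs⟩ := hs
  have hDm : Dm ⊥ univ := Or.inr ⟨rfl, rfl⟩
  have hWm : MeasurableSet (Wi 2 R) := measurableSet_Icc
  obtain ⟨-, -, -, -, h5⟩ := hVDM ⊥ univ hDm
  obtain ⟨-, -, -, -, -, h6⟩ := h5 (Wi 2 R) hWm
  have h7 := h6 b'
  have h8 : Wi 2 R ∩ Icc (-1) 1 = Wi 2 R := inter_eq_left.2 fun E hE => by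
    have := VSA_win hW hE
    exact ⟨by linarith [(abs_le.1 this).1], by linarith [(abs_le.1 this).2]⟩
  rw [h8] at h7
  have h9 : IntegrableOn f ({g : SL(2, ℝ) | dist (g • I : ℍ) I ≤ b'} ×ˢ Wi 2 R) mP :=
    Measure.integrableOn_of_bounded h7.ne hm.aestronglyMeasurable (M := b) (Eventually.of_forall hb)
  refine h9.of_forall_sdiff_eq_zero (MeasurableSet.univ.prod hWm) fun p hp => ?_
  by_contra h0
  exact hp.2 ⟨hs p h0, hp.1.2⟩

theorem VAD_nb {r r' : ℝ} (h : r ≤ r') {p q : SL(2, ℝ) × ℝ} (hn : Nb r p q) : Nb r' p q :=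
  ⟨hn.1.imp (fun h1 i j => (h1 i j).trans_le h) (fun h1 i j => (h1 i j).trans_le h), hn.2.trans_le h⟩

theorem VAD_rg {C C' e ζ ζ1 : ℝ} (h : C' ≤ C) (hr : Rg C e ζ ζ1) : Rg C' e ζ ζ1 := by
  obtain ⟨h1, h2, h3, h4, h5⟩ := hr
  exact ⟨h1, h2, h3, (mul_le_mul_of_nonneg_right h h1).trans h4, (mul_le_mul_of_nonneg_right h (h2.le.trans h3)).trans h5⟩

/-- products of continuous functions with bounded support -/
theorem VAD_prod {φ ψ : ℍ → ℂ} (hφ : FH ⊥ univ φ) (hψ : FH ⊥ univ ψ) :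
    Integrable (fun z => conj (φ z) * ψ z) ∧ Integrable (fun z => φ z * conj (ψ z)) := by
  obtain ⟨b, hb⟩ := hφ.supp
  constructor
  · have := VQA_int MeasurableSet.univ (h := fun z => conj (φ z) * ψ z) ((Complex.continuous_conj.comp hφ.cont).mul hψ.cont)
      ⟨b, fun z hz h0 => hb z hz (fun h1 => h0 (by rw [h1]; simp))⟩
    rwa [integrableOn_univ] at this
  · have := VQA_int MeasurableSet.univ (h := fun z => φ z * conj (ψ z)) (hφ.cont.mul (Complex.continuous_conj.comp hψ.cont))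
      ⟨b, fun z hz h0 => hb z hz (fun h1 => h0 (by rw [h1]; simp))⟩
    rwa [integrableOn_univ] at this

/-- the packets are continuous with bounded support -/
theorem VAD_G {U : ℍ → ℝ} {ch : ℝ → ℝ} {ζ R : ℝ}
    (o4 : ∀ φ : ℍ → ℂ, Continuous φ → (∃ b : ℝ, ∀ z, φ z ≠ 0 → dist z I ≤ b) → FH ⊥ univ φ)
    (c1 : Continuous (fun x : (SL(2, ℝ) × ℝ) × ℍ => Gp U ch ζ R x.1 x.2))
    (c2 : ∀ (p : SL(2, ℝ) × ℝ) (z : ℍ), Gp U ch ζ R p z ≠ 0 → dist (p.1 • I : ℍ) z ≤ 2 * R ^ (-(1 / 2) + ζ)) (x : SL(2, ℝ) × ℝ) :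
    FH ⊥ univ (Gp U ch ζ R x) := by
  have hx1 : Continuous (fun z : ℍ => ((x, z) : (SL(2, ℝ) × ℝ) × ℍ)) := Continuous.prodMk_right x
  have h3 := c1.comp hx1
  have hx2 : Continuous (fun z : ℍ => Gp U ch ζ R x z) := h3
  refine o4 (Gp U ch ζ R x) hx2 ⟨2 * R ^ (-(1 / 2) + ζ) + dist (x.1 • I : ℍ) I, fun z hz => ?_⟩
  have h1 := c2 x z hz
  have h2 := dist_triangle z (x.1 • I : ℍ) I
  rw [dist_comm z (x.1 • I : ℍ)] at h2
  linarith

theorem VAD_proof (hVAW : VAW_stmt) (hVUL : VUL_stmt) (hVNP : VNP_stmt) (hVD0 : VD0_stmt) (hVFM : VFM_stmt) (hVNV : VNV_stmt) (hVUM : VUM_stmt)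
    (hVFR : VFR_stmt) (hVOX : VOX_stmt) (hVQS : VQS_stmt) (hVUB : VUB_stmt) (hVDM : VDM_stmt) : VAD_stmt := by
  obtain ⟨Cw, hCw, hAW⟩ := hVAW
  obtain ⟨Cu, hCu, hUL⟩ := hVUL
  obtain ⟨Cn, hCn, hNP⟩ := hVNP
  obtain ⟨C0, hC0, hD0⟩ := hVD0
  obtain ⟨Cf, hCf, hFM⟩ := hVFM
  obtain ⟨Cv, hCv, hNV⟩ := hVNV
  obtain ⟨Cm, hCm, hUM⟩ := hVUM
  obtain ⟨C, hC⟩ : ∃ C : ℝ, C = 8 + Cw + Cu + Cn + C0 + 4 * Cf + Cv + Cm := ⟨_, rfl⟩
  refine ⟨C, by linarith, ?_⟩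
  intro ch B A e ζ2 hch hA hRg hz12
  -- the parameters
  have he3 := hA.e3
  have hC8 : 8 ≤ C := by linarith
  have hz0 : 0 < A.z := lt_of_lt_of_le (by positivity) hA.z
  have hz10 : 0 < A.z1 := lt_of_lt_of_le (by positivity) hA.z1
  have hz20 : 0 < A.z2 := lt_of_lt_of_le (by positivity) hA.z2
  have hm1 : (1 : ℝ) ≤ (A.m : ℝ) := by exact_mod_cast hA.m
  have hCz2 : C * A.z2 ≤ 1 := by
    refine le_trans ?_ hA.up
    refine mul_le_mul_of_nonneg_left ?_ (by linarith)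
    nlinarith
  have hCz1 : C * A.z1 ≤ 1 := by
    have : A.z2 ≤ 1 := by nlinarith
    exact hA.z2.trans this
  obtain ⟨he0, -, hzζ2, hCe, hCζ2⟩ := hRg
  have hζ20 : 0 < ζ2 := hz10.trans_le hz12
  have hζ28 : ζ2 ≤ 1 / 8 := by nlinarith
  have hz18 : A.z1 ≤ 1 / 8 := hz12.trans hζ28
  have hz8 : A.z ≤ 1 / 8 := hzζ2.trans hζ28
  have hzz1 : A.z ≤ A.z1 := le_trans (by nlinarith) hA.z1
  have hRgC : Rg C e A.z ζ2 := ⟨he0, hz0, hzζ2, hCe, hCζ2⟩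
  have hRg1 : Rg C A.e3 A.z A.z1 := ⟨he3.le, hz0, hzz1, hA.z.trans hzz1, hCz1⟩
  have hAm : Adm Cm A := by
    have hle : Cm ≤ C := by linarith
    exact ⟨he3, hA.m, (mul_le_mul_of_nonneg_right hle he3.le).trans hA.z, (mul_le_mul_of_nonneg_right hle hz0.le).trans hA.z1,
      (mul_le_mul_of_nonneg_right hle hz10.le).trans hA.z2, (mul_le_mul_of_nonneg_right hle (by positivity)).trans hA.up, hA.tu⟩
  obtain ⟨R1, hR1, H1⟩ := hAW ch e A.z ζ2 B hch (VAD_rg (by linarith) hRgC)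
  obtain ⟨R2, hR2, H2⟩ := hUL ch A.e3 A.z A.z1 4 B hch (VAD_rg (by linarith) hRg1)
  obtain ⟨R3, hR3, H3⟩ := hUL ch e A.z ζ2 4 B hch (VAD_rg (by linarith) hRgC)
  obtain ⟨R4, hR4, H4⟩ := hNP ch e A.z ζ2 B hch (VAD_rg (by linarith) hRgC)
  obtain ⟨R5, hR5, H5⟩ := hD0 ch 0 A.e3 A.z A.z1 ζ2 4 hch (VAD_rg (by linarith) hRg1) hz12
    ((mul_le_mul_of_nonneg_right (by linarith) hζ20.le).trans hCζ2)
  obtain ⟨R6, hR6, H6⟩ := hFM ch 0 e A.z ζ2 B hch (VAD_rg (by linarith) hRgC)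
  obtain ⟨R7, hR7, H7⟩ := hUM ch B A hch hAm
  obtain ⟨R8, hR8, H8⟩ := hVQS ch A.z hch hz0 hz8
  refine ⟨R1 + R2 + R3 + R4 + R5 + R6 + R7 + R8 + 17 ^ 8 + 9 * Cv, by norm_num; linarith, ?_⟩
  intro R δ t Γ D p q hR hD hδ hp hq ht0 hst
  have hR17 : (17 : ℝ) ^ 8 ≤ R := by linarith
  have hR0 : 0 < R := lt_of_lt_of_le (by norm_num) hR17
  have hR1' : 1 ≤ R := le_trans (by norm_num) hR17
  have hlog : 0 ≤ Real.log R := Real.log_nonneg hR1'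
  obtain ⟨hW, hsm, -⟩ := VSA_num hR17
  obtain ⟨o1, hDm, -, o4, o5, o6⟩ := hVOX
  have hDb : OKD ⊥ δ B D := o1 Γ δ B D hD
  have hPU : PU ⊥ D.U := (hVUB ⊥ δ B D.U hDb.pot hδ).1
  set σ : ℝ := A.sg R with hσ
  have hσ0 : 0 ≤ σ := mul_nonneg he3.le hlog
  have hte : t ≤ e * Real.log R := by linarith
  have hσe : σ ≤ e * Real.log R := by linarith
  have hpW : p.2 ∈ Wi 2 R := by
    have h1 : 0 < R ^ (-(1 / 4) : ℝ) := by positivity
    exact ⟨by have := hp.1; linarith, by have := hp.2; linarith⟩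
  have hpG : p ∈ GW 2 R := ⟨mem_univ _, hpW⟩
  have hp8 : |p.2| ≤ 1 / 8 := VSA_win hW hpW
  obtain ⟨c1, c2, -, c4, -, -⟩ := H8 R ⊥ univ D.U (by linarith) hDm hPU
  -- functions on the plane
  have hψ : ∀ ζ' : ℝ, 0 < ζ' → ζ' ≤ 1 / 8 → ∀ (s : ℝ) (x : SL(2, ℝ) × ℝ), |x.2| ≤ 1 / 8 → FH ⊥ univ (psi D ch A.z ζ' R s x) :=
    fun ζ' h0 h8 s x hx => (o6 D ch A.z ζ' R s δ Γ B x hch h0 h8 (le_trans (by norm_num) hR17) hD hδ hx (hsm ζ' (by linarith))).1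
  have hG : ∀ x : SL(2, ℝ) × ℝ, FH ⊥ univ (Gp D.U ch A.z R x) := VAD_G o4 c1 fun p z => (c2 p z).2
  set Ψ1 : ℍ → ℂ := psi D ch A.z A.z1 R σ p with hΨ1
  set Ψ2 : ℍ → ℂ := psi D ch A.z ζ2 R σ p with hΨ2
  have hF1 : FH ⊥ univ Ψ1 := hψ A.z1 hz10 hz18 σ p hp8
  have hF2 : FH ⊥ univ Ψ2 := hψ ζ2 hζ20 hζ28 σ p hp8
  -- the difference of the beams
  have hdiff : ∀ z, ‖Ψ1 z - Ψ2 z‖ ≤ R ^ (-4 : ℝ) := by
    intro z
    obtain ⟨-, A', -, -, hbd, heq⟩ := H5 R δ Γ B D p σ (by linarith) hD hδ hp8 (by rw [abs_of_nonneg hσ0, hσ]; exact le_rfl)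
    have h1 := hbd 0 le_rfl (cd ((D.fl p.2 σ p.1)⁻¹ • z))
    rw [norm_iteratedFDeriv_zero, pow_zero, mul_one] at h1
    have h2 : pv D ch A.z ζ2 R σ p (cd ((D.fl p.2 σ p.1)⁻¹ • z)) - pv D ch A.z A.z1 R σ p (cd ((D.fl p.2 σ p.1)⁻¹ • z)) = _ :=
      heq (cd ((D.fl p.2 σ p.1)⁻¹ • z))
    rw [norm_sub_rev]
    change ‖pv D ch A.z ζ2 R σ p (cd ((D.fl p.2 σ p.1)⁻¹ • z)) - pv D ch A.z A.z1 R σ p (cd ((D.fl p.2 σ p.1)⁻¹ • z))‖ ≤ _
    rw [h2, norm_mul, Complex.norm_exp_ofReal_mul_I, one_mul]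
    exact h1
  have hGL1 : ∀ x : SL(2, ℝ) × ℝ, |x.2| ≤ 1 / 8 → ∫ z : ℍ, ‖Gp D.U ch A.z R x z‖ ≤ 8 * R ^ (1 / 2 : ℝ) := fun x hx =>
    (H4 R δ 0 Γ D x (by linarith) hD hδ hx le_rfl (mul_nonneg he0 hlog)).2.2.1
  have hKd : ∀ x ∈ GW 2 R, ‖(∫ z : ℍ, conj (Ψ1 z) * Gp D.U ch A.z R x z) - ∫ z : ℍ, conj (Ψ2 z) * Gp D.U ch A.z R x z‖ ≤
      R ^ (-4 : ℝ) * (8 * R ^ (1 / 2 : ℝ)) := by
    intro x hx
    rw [← integral_sub (VAD_prod hF1 (hG x)).1 (VAD_prod hF2 (hG x)).1]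
    have hi : Integrable (fun z => R ^ (-4 : ℝ) * ‖Gp D.U ch A.z R x z‖) := by
      have h1 : IntegrableOn (Gp D.U ch A.z R x) univ := VQA_int MeasurableSet.univ (hG x).cont (hG x).supp
      rw [integrableOn_univ] at h1
      exact h1.norm.const_mul _
    refine (norm_integral_le_of_norm_le hi (Eventually.of_forall fun z => ?_)).trans ?_
    · rw [← sub_mul, ← map_sub, norm_mul, RCLike.norm_conj]
      exact mul_le_mul_of_nonneg_right (hdiff z) (norm_nonneg _)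
    · rw [integral_const_mul]
      exact mul_le_mul_of_nonneg_left (hGL1 x (VSA_win hW hx.2)) (by positivity)
  -- the families
  obtain ⟨f1, -, -, -, -⟩ := H6 R δ t ⊥ D (by linarith) hDb hδ (by rw [abs_of_nonneg ht0]; exact hte)
  have hηf : Cf * ζ2 ≤ 1 / 4 := by nlinarith
  have hηf0 : 0 < Cf * ζ2 := by positivity
  obtain ⟨-, -, -, r4, r5, r6⟩ := hVFR ⊥ univ δ B D 0 (Cf * ζ2) (R ^ (3 / 2 + Cf * ζ2)) R t (pv D ch A.z ζ2 R t) hDm hDb hδ hηf0 hηf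
    (by positivity) (hsm _ hηf) hW hR1' f1
  have hFa := r5 _ (hG q)
  have hQF := (c4 _ hF2).2
  have hdual := r6 _ _ (hG q) hQF
  have haF : ∀ x ∈ GW 2 R, aF D R t (pv D ch A.z ζ2 R t) (Gp D.U ch A.z R q) x =
      ∫ z : ℍ, conj (psi D ch A.z ζ2 R t x z) * Gp D.U ch A.z R q z := by
    intro x hx
    unfold aF
    rw [indicator_of_mem hx]
    refine integral_congr_ae (Eventually.of_forall fun z => ?_)
    exact mul_comm _ _
  set F : SL(2, ℝ) × ℝ → ℂ := aF D R t (pv D ch A.z ζ2 R t) (Gp D.U ch A.z R q) with hF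
  have hFb : ∀ x ∈ GW 2 R, ‖F x‖ ≤ R ^ (3 : ℝ) := by
    intro x hx
    rw [haF x hx]
    refine (H3 R δ t Γ D x q (by linarith) hD hδ ht0 hte hx hq).1.trans ?_
    refine Real.rpow_le_rpow_of_exponent_le hR1' ?_
    have : Cu * ζ2 ≤ 1 := (mul_le_mul_of_nonneg_right (by linarith) hζ20.le).trans hCζ2
    linarith
  -- K2
  set V : SL(2, ℝ) × ℝ → ℂ := QF D.U ch A.z R Ψ2 with hV
  have hK2 : ∀ x, conj (V x) = ∫ z : ℍ, conj (Ψ2 z) * Gp D.U ch A.z R x z := by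
    intro x
    rw [hV]
    unfold QF
    rw [← integral_conj]
    refine integral_congr_ae (Eventually.of_forall fun z => ?_)
    show conj (Ψ2 z * conj (Gp D.U ch A.z R x z)) = _
    rw [map_mul, Complex.conj_conj]
  -- the kernel
  have hus : ∀ x ∈ GW 2 R, ‖us D ch A R p x - conj (V x)‖ ≤ R ^ (-4 : ℝ) + R ^ (-4 : ℝ) * (8 * R ^ (1 / 2 : ℝ)) ∧
      (us D ch A R p x - conj (V x) ≠ 0 → dist (D.fl p.2 σ p.1 • I : ℍ) (x.1 • I) ≤ 1) := by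
    intro x hx
    obtain ⟨-, u2, u3, -, -⟩ := H2 R δ σ Γ D p x (by linarith) hD hδ hσ0 (by rw [hσ]; exact le_rfl) hpG hx
    obtain ⟨-, w2, -, -, -⟩ := H3 R δ σ Γ D p x (by linarith) hD hδ hσ0 hσe hpG hx
    have hd := hKd x hx
    have hr4 : 0 ≤ R ^ (-4 : ℝ) := by positivity
    by_cases hNb : Nb (A.r R) (D.ph σ p) x
    · have e1 : us D ch A R p x = ∫ z : ℍ, conj (Ψ1 z) * Gp D.U ch A.z R x z := by
        unfold us
        rw [if_pos ⟨hpW, hx.2, hNb⟩]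
      rw [e1, hK2]
      refine ⟨by linarith, fun h => ?_⟩
      by_cases h1 : (∫ z : ℍ, conj (Ψ1 z) * Gp D.U ch A.z R x z) = 0
      · rw [h1, zero_sub, neg_ne_zero] at h
        exact w2 h
      · exact u2 h1
    · have e1 : us D ch A R p x = 0 := by
        unfold us
        rw [if_neg fun h => hNb h.2.2]
      have e2 : ¬ Nb (R ^ (-(1 / 2) + Cu * A.z1)) (D.ph σ p) x := by
        intro h
        refine hNb (VAD_nb ?_ h)
        unfold Prm.r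
        refine Real.rpow_le_rpow_of_exponent_le hR1' ?_
        have : Cu * A.z1 ≤ A.z2 := (mul_le_mul_of_nonneg_right (by linarith) hz10.le).trans hA.z2
        linarith
      rw [e1, hK2, zero_sub]
      refine ⟨?_, fun h => w2 (neg_ne_zero.1 h)⟩
      rw [norm_neg]
      have e3 := norm_sub_norm_le (∫ z : ℍ, conj (Ψ2 z) * Gp D.U ch A.z R x z) (∫ z : ℍ, conj (Ψ1 z) * Gp D.U ch A.z R x z)
      rw [norm_sub_rev] at e3
      have e4 := u3 e2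
      linarith
  -- integrability
  have hGWm : MeasurableSet (GW 2 R) := MeasurableSet.univ.prod measurableSet_Icc
  have hKZ := (H7 R δ ⊥ univ D (by linarith) hDm hDb hδ).1
  have husm : Measurable (fun x => us D ch A R p x) := hKZ.meas.of_uncurry_left
  obtain ⟨bu, hbu⟩ := hKZ.bdd
  obtain ⟨bF, hbF⟩ := hFa.bdd
  obtain ⟨sF', hsF'⟩ := hFa.supp
  obtain ⟨bV, hbV⟩ := hQF.bdd
  have i1 : IntegrableOn (fun x => us D ch A R p x * F x) (GW 2 R) mP :=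
    VAD_int hVDM hW (husm.mul hFa.meas)
      ⟨bu * bF, fun x => by
        rw [norm_mul]
        exact mul_le_mul (hbu p x) (hbF x) (norm_nonneg _) ((norm_nonneg _).trans (hbu p x))⟩
      ⟨sF', fun x hx => hsF' x (mem_univ _) (right_ne_zero_of_mul hx)⟩
  have i2 : IntegrableOn (fun x => conj (V x) * F x) (GW 2 R) mP :=
    VAD_int hVDM hW ((Complex.continuous_conj.measurable.comp hQF.meas).mul hFa.meas)
      ⟨bV * bF, fun x => by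
        rw [norm_mul, RCLike.norm_conj]
        exact mul_le_mul (hbV x) (hbF x) (norm_nonneg _) ((norm_nonneg _).trans (hbV x))⟩
      ⟨sF', fun x hx => hsF' x (mem_univ _) (right_ne_zero_of_mul hx)⟩
  have hT1 : ∫ x, us D ch A R p x * (∫ z : ℍ, conj (psi D ch A.z ζ2 R t x z) * Gp D.U ch A.z R q z) ∂mP =
      ∫ x in GW 2 R, us D ch A R p x * F x ∂mP := by
    rw [← setIntegral_eq_integral_of_forall_compl_eq_zero (s := GW 2 R)]
    · refine setIntegral_congr_fun hGWm fun x hx => ?_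
      show _ = us D ch A R p x * F x
      rw [haF x hx]
    · intro x hx
      have h0 : us D ch A R p x = 0 := by
        unfold us
        rw [if_neg fun h => hx ⟨mem_univ _, h.2.1⟩]
      rw [h0, zero_mul]
  have hT2 : ‖(∫ x in GW 2 R, us D ch A R p x * F x ∂mP) - ∫ x in GW 2 R, conj (V x) * F x ∂mP‖ ≤
      ((R ^ (-4 : ℝ) + R ^ (-4 : ℝ) * (8 * R ^ (1 / 2 : ℝ))) * R ^ (3 : ℝ)) * Cv := by
    rw [← integral_sub i1 i2]
    have hS := (hNV Γ δ B D hD hδ R hW hR1' (D.fl p.2 σ p.1) 0 0 (1 / 8) (by norm_num) (by norm_num) le_rfl (by norm_num)).2.2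
    set S : Set (SL(2, ℝ) × ℝ) := {x | x ∈ GW 2 R ∧ dist (D.fl p.2 σ p.1 • I : ℍ) (D.fl x.2 0 x.1 • I) ≤ 2} with hSdef
    have e1 : ∫ x in GW 2 R, (us D ch A R p x * F x - conj (V x) * F x) ∂mP = ∫ x in S, (us D ch A R p x * F x - conj (V x) * F x) ∂mP := by
      refine setIntegral_eq_of_subset_of_forall_sdiff_eq_zero hGWm (fun x hx => hx.1) ?_
      intro x hx
      rw [← sub_mul]
      by_contra h0
      refine hx.2 ⟨hx.1, ?_⟩
      rw [hD.fl0]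
      exact ((hus x hx.1).2 (left_ne_zero_of_mul h0)).trans (by norm_num)
    rw [e1]
    refine (norm_setIntegral_le_of_norm_le_const (C := (R ^ (-4 : ℝ) + R ^ (-4 : ℝ) * (8 * R ^ (1 / 2 : ℝ))) * R ^ (3 : ℝ))
      (hS.trans_lt ENNReal.ofReal_lt_top) ?_).trans ?_
    · intro x hx
      rw [← sub_mul, norm_mul]
      exact mul_le_mul (hus x hx.1).1 (hFb x hx.1) (norm_nonneg _) (by positivity)
    · refine mul_le_mul_of_nonneg_left ?_ (by positivity)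
      exact ENNReal.toReal_le_of_le_ofReal (by linarith) hS
  -- Fubini
  have hT3 : ∫ x in GW 2 R, conj (V x) * F x ∂mP = ∫ z : ℍ, Gp D.U ch A.z R q z * conj (sF D R t (pv D ch A.z ζ2 R t) V z) := by
    rw [setIntegral_univ, o5] at hdual
    rw [← hdual]
    refine setIntegral_congr_fun hGWm fun x _ => ?_
    exact mul_comm _ _
  -- the energy estimate
  have hA' := H1 R δ σ t Γ D p (by linarith) hD hδ hp hσ0 ht0 hst
  have hψ3 := hψ ζ2 hζ20 hζ28 (σ + t) p hp8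
  have hsFF : FH ⊥ univ (sF D R t (pv D ch A.z ζ2 R t) V) := r4 V hQF
  have hdf : FH ⊥ univ (fun z => sF D R t (pv D ch A.z ζ2 R t) V z - psi D ch A.z ζ2 R (σ + t) p z) := by
    obtain ⟨b1, hb1⟩ := hsFF.supp
    obtain ⟨b2, hb2⟩ := hψ3.supp
    refine o4 _ (hsFF.cont.sub hψ3.cont) ⟨max b1 b2, fun z hz => ?_⟩
    by_cases h1 : sF D R t (pv D ch A.z ζ2 R t) V z = 0
    · refine (hb2 z (mem_univ _) fun h2 => hz ?_).trans (le_max_right _ _)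
      rw [h1, h2, sub_zero]
    · exact (hb1 z (mem_univ _) h1).trans (le_max_left _ _)
  have hT4 : ‖(∫ z : ℍ, Gp D.U ch A.z R q z * conj (sF D R t (pv D ch A.z ζ2 R t) V z)) -
      ∫ z : ℍ, conj (psi D ch A.z ζ2 R (σ + t) p z) * Gp D.U ch A.z R q z‖ ≤ R ^ (9 / 5 : ℝ) := by
    rw [← integral_sub (VAD_prod (hG q) hsFF).2 (VAD_prod hψ3 (hG q)).1]
    have e1 : ∀ z : ℍ, Gp D.U ch A.z R q z * conj (sF D R t (pv D ch A.z ζ2 R t) V z) - conj (psi D ch A.z ζ2 R (σ + t) p z) * Gp D.U ch A.z R q z =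
        Gp D.U ch A.z R q z * conj (sF D R t (pv D ch A.z ζ2 R t) V z - psi D ch A.z ζ2 R (σ + t) p z) := by
      intro z
      rw [map_sub]
      ring
    simp only [e1]
    refine (norm_integral_le_integral_norm _).trans ?_
    have e2 : ∫ z : ℍ, ‖Gp D.U ch A.z R q z * conj (sF D R t (pv D ch A.z ζ2 R t) V z - psi D ch A.z ζ2 R (σ + t) p z)‖ =
        ∫ z in (univ : Set ℍ), ‖Gp D.U ch A.z R q z‖ * ‖sF D R t (pv D ch A.z ζ2 R t) V z - psi D ch A.z ζ2 R (σ + t) p z‖ := by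
      rw [setIntegral_univ]
      refine integral_congr_ae (Eventually.of_forall fun z => ?_)
      show ‖_ * _‖ = _
      rw [norm_mul, RCLike.norm_conj]
    rw [e2]
    refine (VSA_csn hDm (hG q) hdf).trans ?_
    have e3 : Real.sqrt (nn univ (Gp D.U ch A.z R q)) ≤ R := by
      rw [Real.sqrt_le_left hR0.le]
      exact (H4 R δ 0 Γ D q (by linarith) hD hδ (VSA_win hW hq.2) le_rfl (mul_nonneg he0 hlog)).2.1
    have e4 : Real.sqrt (nn univ (fun z => sF D R t (pv D ch A.z ζ2 R t) V z - psi D ch A.z ζ2 R (σ + t) p z)) ≤ R ^ (4 / 5 : ℝ) := by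
      rw [Real.sqrt_le_left (by positivity)]
      refine hA'.trans (le_of_eq ?_)
      rw [← Real.rpow_natCast, ← Real.rpow_mul hR0.le]
      norm_num
    refine (mul_le_mul e3 e4 (Real.sqrt_nonneg _) hR0.le).trans (le_of_eq ?_)
    rw [← Real.rpow_one_add' hR0.le (by norm_num)]
    norm_num
  -- the end
  rw [hT1]
  have hfin : ‖(∫ x in GW 2 R, us D ch A R p x * F x ∂mP) - ∫ z : ℍ, conj (psi D ch A.z ζ2 R (σ + t) p z) * Gp D.U ch A.z R q z‖ ≤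
      ((R ^ (-4 : ℝ) + R ^ (-4 : ℝ) * (8 * R ^ (1 / 2 : ℝ))) * R ^ (3 : ℝ)) * Cv + R ^ (9 / 5 : ℝ) := by
    refine (norm_sub_le_norm_sub_add_norm_sub _ (∫ x in GW 2 R, conj (V x) * F x ∂mP) _).trans ?_
    refine add_le_add hT2 ?_
    rw [hT3]
    exact hT4
  refine hfin.trans ?_
  have n1 : (R ^ (-4 : ℝ) + R ^ (-4 : ℝ) * (8 * R ^ (1 / 2 : ℝ))) * R ^ (3 : ℝ) ≤ 9 := by
    have a1 : R ^ (-4 : ℝ) * R ^ (1 / 2 : ℝ) * R ^ (3 : ℝ) ≤ 1 := by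
      rw [← Real.rpow_add hR0, ← Real.rpow_add hR0]
      exact Real.rpow_le_one_of_one_le_of_nonpos hR1' (by norm_num)
    have a2 : R ^ (-4 : ℝ) * R ^ (3 : ℝ) ≤ 1 := by
      rw [← Real.rpow_add hR0]
      exact Real.rpow_le_one_of_one_le_of_nonpos hR1' (by norm_num)
    calc (R ^ (-4 : ℝ) + R ^ (-4 : ℝ) * (8 * R ^ (1 / 2 : ℝ))) * R ^ (3 : ℝ) =
          R ^ (-4 : ℝ) * R ^ (3 : ℝ) + 8 * (R ^ (-4 : ℝ) * R ^ (1 / 2 : ℝ) * R ^ (3 : ℝ)) := by ring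
      _ ≤ 9 := by linarith
  have n2 : ((R ^ (-4 : ℝ) + R ^ (-4 : ℝ) * (8 * R ^ (1 / 2 : ℝ))) * R ^ (3 : ℝ)) * Cv ≤ R := by
    have : ((R ^ (-4 : ℝ) + R ^ (-4 : ℝ) * (8 * R ^ (1 / 2 : ℝ))) * R ^ (3 : ℝ)) * Cv ≤ 9 * Cv := mul_le_mul_of_nonneg_right n1 (by linarith)
    have h17 : (0 : ℝ) ≤ 17 ^ 8 := by norm_num
    linarith
  have n3 : R ≤ R ^ (9 / 5 : ℝ) := by
    calc R = R ^ (1 : ℝ) := (Real.rpow_one R).symm
      _ ≤ _ := Real.rpow_le_rpow_of_exponent_le hR1' (by norm_num)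
  have n4 : 2 ≤ R ^ (3 / 40 : ℝ) := by
    have a1 : (2 : ℝ) ^ 40 ≤ R ^ 3 := by
      calc (2 : ℝ) ^ 40 ≤ (17 ^ 8) ^ 3 := by norm_num
        _ ≤ R ^ 3 := pow_le_pow_left₀ (by norm_num) hR17 3
    have a2 : R ^ (3 / 40 : ℝ) = (R ^ 3) ^ (1 / 40 : ℝ) := by
      rw [← Real.rpow_natCast, ← Real.rpow_mul hR0.le]
      norm_num
    have a3 : (2 : ℝ) = ((2 : ℝ) ^ 40) ^ (1 / 40 : ℝ) := by
      rw [← Real.rpow_natCast, ← Real.rpow_mul (by norm_num)]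
      norm_num
    rw [a2, a3]
    exact Real.rpow_le_rpow (by positivity) a1 (by norm_num)
  have n5 : R ^ (15 / 8 : ℝ) = R ^ (9 / 5 : ℝ) * R ^ (3 / 40 : ℝ) := by
    rw [← Real.rpow_add hR0]
    norm_num
  rw [n5]
  have n6 : R ^ (9 / 5 : ℝ) * 2 ≤ R ^ (9 / 5 : ℝ) * R ^ (3 / 40 : ℝ) := mul_le_mul_of_nonneg_left n4 (by positivity)
  linarith

end

end Pool.Agent.VQ
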